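import Pool.Agent.Lib.MP_ee1e43_pr.Params

/-!
# A Lévy process with jumps of infinite variation for which Hunt's hypothesis (H) fails

There is a one-dimensional Lévy process `X` without Gaussian part whose Lévy measure `μ` satisfies
`∫ (1 ∧ |x|) μ(dx) = ∞`, and a closed set that is thin for `X` (hence semipolar) but not polar.
-/

namespace Pool.Agent.Results.MP_ee1e43_pr.HuntFails

open MeasureTheory ProbabilityTheory
open scoped NNReal ENNReal
open Pool.Agent.Lib.MP_ee1e43_pr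

/-- a Borel set is nearly Borel -/
lemma nearlyBorel_of_measurable {Ω : Type} [MeasurableSpace Ω] (P : Measure Ω)
    (X : ℝ≥0 → Ω → ℝ) {A : Set ℝ} (hA : MeasurableSet A) : NearlyBorel P X A :=
  fun ν _ => ⟨A, A, hA, hA, le_rfl, le_rfl, by simp⟩

theorem result :
    ∃ (Ω : Type) (_ : MeasurableSpace Ω) (P : Measure Ω) (X : ℝ≥0 → Ω → ℝ) (b : ℝ)
      (μ : Measure ℝ),
      IsProbabilityMeasure P ∧ IsLevyProcess P X ∧ HasLevyTriplet P X b 0 μ ∧
      ∫⁻ x, ENNReal.ofReal (min 1 |x|) ∂μ = ∞ ∧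
      (∃ A : Set ℝ, IsClosed A ∧ Thin P X A ∧ ¬ Polar P X A) ∧
      ¬ HuntH P X := by
  obtain ⟨θ, hθ⟩ := not_polar par3
  have hc := isClosed_setA par0 θ
  have ht := thin_setA par2 θ
  have hn := nearlyBorel_of_measurable (Pr b0 x0) (fun (t : ℝ≥0) ω => X b0 x0 t ω)
    hc.measurableSet
  refine ⟨Sp, inferInstance, Pr b0 x0, fun (t : ℝ≥0) ω => X b0 x0 t ω, b0 0, levy b0 x0,
    inferInstance, isLevy par0, hasTriplet par0, levy_abs par0, ⟨setA b0 x0 θ, hc, ht, hθ⟩, ?_⟩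
  intro hH
  exact hθ (hH _ hn ⟨fun _ => setA b0 x0 θ, fun _ => ⟨hn, ht⟩, Set.subset_iUnion_of_subset 0 le_rfl⟩)

end Pool.Agent.Results.MP_ee1e43_pr.HuntFails
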